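import Pool.Agent.MP_5f72fe_nt.H3.SpecC

/-! Row US: unfolding the forms of square discriminant. -/

namespace Pool.Agent.MP_5f72fe_nt.H19

open Complex Filter Topology MeasureTheory Set
open scoped Real MatrixGroups UpperHalfPlane NumberTheorySymbols
open Pool.Agent.MP_5f72fe_nt.H3

noncomputable section

/-- the term of one quadratic form -/
def usT (N k : ℕ) (z : ℂ) (a b c : ℤ) : ℂ :=
  (chi N a b c : ℂ) / (a * z ^ 2 + b * z + c) ^ k

/-- admissible pairs of linear forms -/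
def usP (M : ℤ) (x : (ℤ × ℤ) × (ℤ × ℤ)) : Prop :=
  IsCoprime x.1.1 x.1.2 ∧ x.2.1 * x.1.2 - x.2.2 * x.1.1 = M

/-- the product of two linear forms -/
def usQ (x : (ℤ × ℤ) × (ℤ × ℤ)) : ℤ × ℤ × ℤ :=
  (x.1.1 * x.2.1, x.1.1 * x.2.2 + x.1.2 * x.2.1, x.1.2 * x.2.2)

/-- the sign normalisation -/
def usPos (v : ℤ × ℤ) : Prop := 0 < v.1 ∨ (v.1 = 0 ∧ 0 < v.2)

open Classical in
/-- the term of a pair of linear forms -/
def usF (N k : ℕ) (M : ℤ) (z : ℂ) (x : (ℤ × ℤ) × (ℤ × ℤ)) : ℂ :=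
  if usP M x then usT N k z (usQ x).1 (usQ x).2.1 (usQ x).2.2 else 0

open Classical in
/-- the part with positive first form -/
def usFp (N k : ℕ) (M : ℤ) (z : ℂ) (x : (ℤ × ℤ) × (ℤ × ℤ)) : ℂ :=
  if usPos x.1 then usF N k M z x else 0

lemma us_inj {M : ℤ} (hM : M ≠ 0) {x y : (ℤ × ℤ) × (ℤ × ℤ)} (hx : usP M x) (hy : usP M y)
    (px : usPos x.1) (py : usPos y.1) (h : usQ x = usQ y) : x = y := by
  obtain ⟨⟨q, p⟩, c, d⟩ := x
  obtain ⟨⟨q', p'⟩, c', d'⟩ := y
  obtain ⟨⟨u, v, huv⟩, hd⟩ := hx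
  obtain ⟨⟨u', v', huv'⟩, hd'⟩ := hy
  simp only [usQ, Prod.mk.injEq] at h
  obtain ⟨h1, h2, h3⟩ := h
  simp only [usPos] at px py
  simp only at huv hd huv' hd'
  have h4 : c * p = c' * p' := by linarith
  have h5 : d * q = d' * q' := by linarith
  have hprop : q * p' = p * q' := by
    have e1 : c * (q * p' - p * q') = 0 := by linear_combination p' * h1 - q' * h4
    have e2 : d * (q * p' - p * q') = 0 := by linear_combination p' * h5 - q' * h3
    have e3 : M * (q * p' - p * q') = 0 := by linear_combination p * e1 - q * e2 - (q * p' - p * q') * hd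
    rcases mul_eq_zero.1 e3 with h | h
    · exact absurd h hM
    · linarith
  set l := u * q' + v * p' with hl
  have hq : q' = l * q := by rw [hl]; linear_combination (-q') * huv - v * hprop
  have hp : p' = l * p := by rw [hl]; linear_combination (-p') * huv + u * hprop
  have hu : l * (u' * q + v' * p) = 1 := by linear_combination huv' - u' * hq - v' * hp
  have hl1 : l = 1 := by
    rcases Int.eq_one_or_neg_one_of_mul_eq_one hu with h | h
    · exact h
    · exfalso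
      rw [h] at hq hp
      rcases px with h1 | ⟨h1, h2⟩ <;> rcases py with h3 | ⟨h3, h4⟩ <;> omega
  rw [hl1, one_mul] at hq hp
  subst hq hp
  have hc : c = c' := by linear_combination u * h1 + v * h4 - (c - c') * huv
  have hdd : d = d' := by linear_combination u * h5 + v * h3 - (d - d') * huv
  rw [hc, hdd]

lemma us_rank_one {a r s c : ℤ} (h : a * c = r * s) (h0 : ¬(a = 0 ∧ r = 0)) :
    ∃ q p c' d : ℤ, IsCoprime q p ∧ a = c' * q ∧ r = c' * p ∧ s = d * q ∧ c = d * p := by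
  have hg : 0 < Int.gcd a r := by
    rw [Int.gcd_pos_iff]
    by_contra hc
    push Not at hc
    exact h0 hc
  obtain ⟨g, q, p, hg0, hcop, ha, hr⟩ := Int.exists_gcd_one' hg
  have hc : IsCoprime q p := Int.isCoprime_iff_gcd_eq_one.2 hcop
  obtain ⟨u, v, huv⟩ := hc
  have hg' : (g : ℤ) ≠ 0 := by exact_mod_cast hg0.ne'
  have h1 : q * c = p * s := by
    apply mul_left_cancel₀ hg'
    rw [ha, hr] at h
    linear_combination h
  refine ⟨q, p, g, u * s + v * c, ⟨u, v, huv⟩, by rw [ha]; ring, by rw [hr]; ring, ?_, ?_⟩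
  · linear_combination (-s) * huv - v * h1
  · linear_combination (-c) * huv + u * h1

lemma us_surj0 {M a b c : ℤ} (hM : M ≠ 0) (h : b ^ 2 - 4 * a * c = M ^ 2) :
    ∃ x, usP M x ∧ usQ x = (a, b, c) := by
  have hpar : ∃ s, b - M = 2 * s := by
    rcases Int.emod_two_eq_zero_or_one (b - M) with h0 | h0
    · exact ⟨(b - M) / 2, by omega⟩
    · exfalso
      obtain ⟨s, hs⟩ : ∃ s, b - M = 2 * s + 1 := ⟨(b - M) / 2, by omega⟩
      have hb : b = M + 2 * s + 1 := by linarith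
      rw [hb] at h
      have : 2 * (2 * s * s + 2 * s + 2 * M * s + M - 2 * a * c) + 1 = 0 := by linear_combination h
      omega
  obtain ⟨s, hs⟩ := hpar
  have hb : b = M + 2 * s := by linarith
  have hrs : a * c = (M + s) * s := by
    have : 4 * (a * c) = 4 * ((M + s) * s) := by rw [hb] at h; linear_combination -h
    linarith
  by_cases h0 : a = 0 ∧ M + s = 0
  · have h1 : ¬(s = 0 ∧ c = 0) := by
      rintro ⟨h1, -⟩
      apply hM
      linarith [h0.2]
    obtain ⟨q, p, d, c', hc, e1, e2, e3, e4⟩ :=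
      us_rank_one (a := s) (r := c) (s := a) (c := M + s) (by linear_combination -hrs) h1
    refine ⟨((q, p), c', d), ⟨hc, ?_⟩, ?_⟩
    · simp only
      linarith
    · simp only [usQ, Prod.mk.injEq]
      refine ⟨by linarith, by linarith, by linarith⟩
  · obtain ⟨q, p, c', d, hc, e1, e2, e3, e4⟩ := us_rank_one hrs h0
    refine ⟨((q, p), c', d), ⟨hc, ?_⟩, ?_⟩
    · simp only
      linarith
    · simp only [usQ, Prod.mk.injEq]
      refine ⟨by linarith, by linarith, by linarith⟩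

lemma usP_neg {M : ℤ} (x : (ℤ × ℤ) × (ℤ × ℤ)) : usP M (-x) ↔ usP M x := by
  simp [usP, IsCoprime.neg_neg_iff]

lemma usQ_neg (x : (ℤ × ℤ) × (ℤ × ℤ)) : usQ (-x) = usQ x := by
  simp [usQ]

lemma usF_neg (N k : ℕ) (M : ℤ) (z : ℂ) (x : (ℤ × ℤ) × (ℤ × ℤ)) :
    usF N k M z (-x) = usF N k M z x := by
  by_cases hx : usP M x
  · simp only [usF, if_pos hx, if_pos ((usP_neg x).2 hx), usQ_neg]
  · simp only [usF, if_neg hx, if_neg (fun h => hx ((usP_neg x).1 h))]

lemma usPos_neg {M : ℤ} {x : (ℤ × ℤ) × (ℤ × ℤ)} (h : usP M x) : usPos (-x).1 ↔ ¬usPos x.1 := by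
  obtain ⟨⟨q, p⟩, w⟩ := x
  have h0 : ¬(q = 0 ∧ p = 0) := by
    rintro ⟨rfl, rfl⟩
    exact not_isCoprime_zero_zero h.1
  simp only [usPos, Prod.fst_neg, Prod.snd_neg]
  omega

lemma us_surj {M a b c : ℤ} (hM : M ≠ 0) (h : b ^ 2 - 4 * a * c = M ^ 2) :
    ∃ x, usP M x ∧ usPos x.1 ∧ usQ x = (a, b, c) := by
  obtain ⟨x, hx, hq⟩ := us_surj0 hM h
  by_cases hp : usPos x.1
  · exact ⟨x, hx, hp, hq⟩
  · exact ⟨-x, (usP_neg x).2 hx, (usPos_neg hx).2 hp, by rw [usQ_neg, hq]⟩

lemma usQ_disc {M : ℤ} {x : (ℤ × ℤ) × (ℤ × ℤ)} (h : usP M x) :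
    (usQ x).2.1 ^ 2 - 4 * (usQ x).1 * (usQ x).2.2 = M ^ 2 := by
  rw [← h.2]
  simp only [usQ]
  ring

lemma us_split (N k : ℕ) (M : ℤ) (z : ℂ) (x : (ℤ × ℤ) × (ℤ × ℤ)) :
    usF N k M z x = usFp N k M z x + usFp N k M z (-x) := by
  by_cases hx : usP M x
  · by_cases hp : usPos x.1
    · have : ¬usPos (-x).1 := by rw [usPos_neg hx]; exact not_not.2 hp
      simp only [usFp, if_pos hp, if_neg this, add_zero]
    · have : usPos (-x).1 := (usPos_neg hx).2 hp
      simp only [usFp, if_neg hp, if_pos this, zero_add, usF_neg]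
  · have h0 : usF N k M z x = 0 := by simp only [usF, if_neg hx]
    simp only [usFp, usF_neg, h0, ite_self, add_zero]

lemma us_hasSum_p {N k t : ℕ} (hN : N ≠ 0) (ht : 1 ≤ t) {z s : ℂ}
    (h : HasSum (Qt N k (N * t ^ 2) z) s) : HasSum (usFp N k (N * t) z) s := by
  have hM : ((N : ℤ) * t) ≠ 0 := mul_ne_zero (by exact_mod_cast hN) (by exact_mod_cast (by omega))
  have hD : ((N : ℤ) * ((N * t ^ 2 : ℕ) : ℤ)) = ((N : ℤ) * t) ^ 2 := by push_cast; ring
  have hsup : ∀ x, usFp N k (N * t) z x ≠ 0 → usP (N * t) x ∧ usPos x.1 := by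
    intro x hx
    by_contra hc
    apply hx
    by_cases hp : usPos x.1
    · have : ¬usP (N * t) x := fun h' => hc ⟨h', hp⟩
      simp only [usFp, usF, if_neg this, ite_self]
    · simp only [usFp, if_neg hp]
  have hval : ∀ x, usP (N * t) x → usPos x.1 →
      Qt N k (N * t ^ 2) z (usQ x) = usFp N k (N * t) z x := by
    intro x hx hp
    have hd := usQ_disc hx
    rw [← hD] at hd
    simp only [usFp, usF, if_pos hx, if_pos hp, Qt, if_pos hd, usT]
  refine (hasSum_iff_hasSum_of_ne_zero_bij (f := Qt N k (N * t ^ 2) z) (g := usFp N k (N * t) z)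
    (fun x => usQ x.1) ?_ ?_ ?_).1 h
  · intro x y hxy
    exact Subtype.ext (us_inj hM (hsup _ x.2).1 (hsup _ y.2).1 (hsup _ x.2).2 (hsup _ y.2).2 hxy)
  · rintro ⟨a, b, c⟩ hq
    have hd : b ^ 2 - 4 * a * c = ((N : ℤ) * t) ^ 2 := by
      by_contra hc
      apply hq
      rw [← hD] at hc
      simp only [Qt, if_neg hc]
    obtain ⟨x, hx, hp, hQ⟩ := us_surj hM hd
    refine ⟨⟨x, ?_⟩, hQ⟩
    rw [Function.mem_support, ← hval x hx hp, hQ]
    exact hq
  · intro x
    exact hval _ (hsup _ x.2).1 (hsup _ x.2).2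

lemma us_hasSum {N k t : ℕ} (hN : N ≠ 0) (ht : 1 ≤ t) {z s : ℂ}
    (h : HasSum (Qt N k (N * t ^ 2) z) s) : HasSum (usF N k (N * t) z) (2 * s) := by
  have h1 := us_hasSum_p hN ht h
  have h2 : HasSum (fun x => usFp N k (N * t) z (-x)) s :=
    (Equiv.neg _).hasSum_iff.2 h1
  have h3 := h1.add h2
  rw [two_mul, show usF N k (N * t) z = _ from funext (us_split N k (N * t) z)]
  exact h3

/-- the sum over the second form -/
def usG (N k : ℕ) (M : ℤ) (v : ℤ × ℤ) (z : ℂ) : ℂ := ∑' w : ℤ × ℤ, usF N k M z (v, w)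

lemma usG_sum (CA : RowCA) {N k t : ℕ} (hA : Adm N k) (ht : 1 ≤ t) {z : ℂ} (hz : 0 < z.im) :
    ∑' v, usG N k (N * t) v z = 2 * fq N k (N * t ^ 2) z := by
  have hN : N ≠ 0 := hA.2.1.ne_zero
  have hn : 1 ≤ N * t ^ 2 := Nat.one_le_iff_ne_zero.2 (mul_ne_zero hN (pow_ne_zero _ (by omega)))
  have h := us_hasSum hN ht (((CA N k _ hA hn).1 z hz).of_norm.hasSum)
  rw [fq, ← h.tsum_eq, h.summable.tsum_prod]
  rfl

lemma usG_zero (N k : ℕ) (M : ℤ) {v : ℤ × ℤ} (hv : ¬IsCoprime v.1 v.2) (z : ℂ) :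
    usG N k M v z = 0 := by
  have : ∀ w, usF N k M z (v, w) = 0 := fun w => by
    have : ¬usP M (v, w) := fun h => hv h.1
    simp only [usF, if_neg this]
  simp only [usG, this, tsum_zero]

lemma usT_S (CHI : RowCHI) {N : ℕ} (hN : Odd N) (k : ℕ) {z : ℂ} (hz : z ≠ 0) (a b c : ℤ) :
    usT N k (-1 / z) a b c = z ^ (2 * k) * usT N k z c (-b) a := by
  have h : (a * (-1 / z) ^ 2 + b * (-1 / z) + c : ℂ) =
      (c * z ^ 2 + ((-b : ℤ) : ℂ) * z + a) / z ^ 2 := by
    push_cast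
    field_simp
    ring
  rw [usT, usT, CHI.sw N a b c hN, h, div_pow, ← pow_mul, div_div_eq_mul_div]
  ring

lemma usT_T (CHI : RowCHI) {N : ℕ} (hN : Odd N) (k : ℕ) (z : ℂ) (a b c : ℤ) :
    usT N k (z + 1) a b c = usT N k z a (b + 2 * a * 1) (a * 1 ^ 2 + b * 1 + c) := by
  have h : (a * (z + 1) ^ 2 + b * (z + 1) + c : ℂ) =
      a * z ^ 2 + ((b + 2 * a * 1 : ℤ) : ℂ) * z + ((a * 1 ^ 2 + b * 1 + c : ℤ) : ℂ) := by
    push_cast
    ring
  rw [usT, usT, CHI.tr N a b c 1 hN, h]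

/-- the action of `S` on rows -/
def usS : ℤ × ℤ ≃ ℤ × ℤ where
  toFun w := (w.2, -w.1)
  invFun w := (-w.2, w.1)
  left_inv w := by simp
  right_inv w := by simp

/-- the action of `T` on rows -/
def usU : ℤ × ℤ ≃ ℤ × ℤ where
  toFun w := (w.1, w.2 + w.1)
  invFun w := (w.1, w.2 - w.1)
  left_inv w := by simp
  right_inv w := by simp

lemma usG_S (CHI : RowCHI) {N : ℕ} (hN : Odd N) (k : ℕ) (M : ℤ) {z : ℂ} (hz : z ≠ 0) (q p : ℤ) :
    usG N k M (q, p) (-1 / z) = z ^ (2 * k) * usG N k M (p, -q) z := by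
  rw [usG, usG, ← usS.tsum_eq (fun w => usF N k M z ((p, -q), w)), ← tsum_mul_left]
  refine tsum_congr fun w => ?_
  obtain ⟨c, d⟩ := w
  have hP : usP M ((p, -q), usS (c, d)) ↔ usP M ((q, p), c, d) := by
    simp only [usP, usS, Equiv.coe_fn_mk, IsCoprime.neg_right_iff]
    rw [isCoprime_comm]
    refine and_congr Iff.rfl ⟨fun h => by linarith, fun h => by linarith⟩
  by_cases hx : usP M ((q, p), c, d)
  · simp only [usF, if_pos hx, if_pos (hP.2 hx)]
    rw [usT_S CHI hN k hz]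
    simp only [usQ, usS, Equiv.coe_fn_mk]
    have e1 : p * -c + -q * d = -(q * d + p * c) := by ring
    have e2 : -q * -c = q * c := by ring
    rw [e1, e2]
  · simp only [usF, if_neg hx, if_neg (fun h => hx (hP.1 h)), mul_zero]

lemma usG_T (CHI : RowCHI) {N : ℕ} (hN : Odd N) (k : ℕ) (M : ℤ) (z : ℂ) (q p : ℤ) :
    usG N k M (q, p) (z + 1) = usG N k M (q, p + q) z := by
  rw [usG, usG, ← usU.tsum_eq (fun w => usF N k M z ((q, p + q), w))]
  refine tsum_congr fun w => ?_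
  obtain ⟨c, d⟩ := w
  have hP : usP M ((q, p + q), usU (c, d)) ↔ usP M ((q, p), c, d) := by
    simp only [usP, usU, Equiv.coe_fn_mk]
    have : IsCoprime q (p + q) ↔ IsCoprime q p := by
      have := IsCoprime.add_mul_left_right_iff (x := q) (y := p) (z := 1)
      rwa [mul_one] at this
    rw [this]
    refine and_congr Iff.rfl ⟨fun h => by linarith, fun h => by linarith⟩
  by_cases hx : usP M ((q, p), c, d)
  · simp only [usF, if_pos hx, if_pos (hP.2 hx)]
    rw [usT_T CHI hN k z]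
    simp only [usQ, usU, Equiv.coe_fn_mk]
    have e1 : q * (d + c) + (p + q) * c = q * d + p * c + 2 * (q * c) * 1 := by ring
    have e2 : (p + q) * (d + c) = q * c * 1 ^ 2 + (q * d + p * c) * 1 + p * d := by ring
    rw [e1, e2]
  · simp only [usF, if_neg hx, if_neg (fun h => hx (hP.1 h))]

lemma usG_one (CHI : RowCHI) {N : ℕ} (hN : Odd N) (hs : Squarefree N) (k t : ℕ) (z : ℂ) :
    usG N k (N * t) (0, 1) z = phi N k t z := by
  have hinj : Function.Injective fun d : ℤ => (((N : ℤ) * t, d) : ℤ × ℤ) :=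
    fun a b h => (Prod.mk.inj h).2
  rw [usG, phi, ← hinj.tsum_eq]
  · refine tsum_congr fun d => ?_
    have hP : usP (N * t) ((0, 1), (N : ℤ) * t, d) := ⟨isCoprime_one_right, by simp⟩
    simp only [usF, if_pos hP, usQ, usT, zero_mul, one_mul, zero_add]
    rw [CHI.zero N _ _ hN hs, if_pos (dvd_mul_right _ _)]
    push_cast
    simp only [zero_mul, zero_add]
  · rintro ⟨c, d⟩ h
    have hP : usP (N * t) ((0, 1), c, d) := by
      by_contra hc
      exact h (by simp only [usF, if_neg hc])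
    refine ⟨d, ?_⟩
    have := hP.2
    simp only [mul_one, mul_zero, sub_zero] at this
    rw [this]

/-- the family to unfold -/
def usH (N k t : ℕ) (f : ℍ → ℂ) (v : ℤ × ℤ) (z : ℂ) : ℂ :=
  usG N k (N * t) v z * ((starRingEnd ℂ) (fC f z) * (z.im : ℂ) ^ (2 * k))

lemma us_fC_T (f : ℍ → ℂ) (z : ℂ) : fC f (z + 1) = fC f z := by
  refine tsum_congr fun n => ?_
  have : 2 * π * I * (n * (z + 1) / ((1 : ℕ) : ℂ)) =
      2 * π * I * (n * z / ((1 : ℕ) : ℂ)) + n * (2 * π * I) := by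
    push_cast
    ring
  rw [E, E, this, Complex.exp_add, Complex.exp_nat_mul_two_pi_mul_I, mul_one]

lemma us_im_S {z : ℂ} (hz : z ≠ 0) :
    z * (starRingEnd ℂ) z * ((-1 / z).im : ℂ) = (z.im : ℂ) := by
  have h0 : normSq z ≠ 0 := by simpa using hz
  have h1 : (-1 / z).im = z.im / normSq z := by
    rw [div_im]
    simp [neg_div]
  rw [mul_conj, h1]
  have h2 : ((normSq z : ℝ) : ℂ) ≠ 0 := by exact_mod_cast h0
  push_cast
  field_simp

lemma us_major_int (k : ℕ) (hk : 1 ≤ k) (C : ℝ) :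
    IntegrableOn (fun y : ℝ => C * (Real.exp 1 * (Real.exp (-y) * y ^ ((1 / 4 : ℝ) - 1)) +
      Real.exp (-y) * y ^ ((2 * k - 1 : ℝ) - 1))) (Ioi 0) := by
  have hk' : (1 : ℝ) ≤ k := by exact_mod_cast hk
  exact (((Real.GammaIntegral_convergent (by norm_num)).const_mul _).add
    (Real.GammaIntegral_convergent (by linarith))).const_mul _

lemma us_major_le (k : ℕ) {y : ℝ} (hy : 0 < y) :
    y ^ (2 * k) / y ^ 2 * (if y ≤ 1 then y ^ (5 / 4 - 2 * k : ℝ) else Real.exp (-y)) ≤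
      Real.exp 1 * (Real.exp (-y) * y ^ ((1 / 4 : ℝ) - 1)) +
        Real.exp (-y) * y ^ ((2 * k - 1 : ℝ) - 1) := by
  have e : y ^ (2 * k) / y ^ 2 = y ^ ((2 * k - 1 : ℝ) - 1) := by
    rw [← Real.rpow_natCast, ← Real.rpow_natCast, ← Real.rpow_sub hy]
    push_cast
    ring_nf
  have p1 : 0 ≤ y ^ ((1 / 4 : ℝ) - 1) := (Real.rpow_pos_of_pos hy _).le
  have p2 : 0 ≤ y ^ ((2 * k - 1 : ℝ) - 1) := (Real.rpow_pos_of_pos hy _).le
  rw [e]
  split_ifs with h
  · have e2 : y ^ ((2 * k - 1 : ℝ) - 1) * y ^ (5 / 4 - 2 * k : ℝ) = y ^ ((1 / 4 : ℝ) - 1) := by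
      rw [← Real.rpow_add hy]
      ring_nf
    have e3 : 1 ≤ Real.exp 1 * Real.exp (-y) := by
      rw [← Real.exp_add]
      exact Real.one_le_exp (by linarith)
    have p3 := mul_nonneg (Real.exp_pos (-y)).le p2
    rw [e2, ← mul_assoc]
    nlinarith [mul_le_mul_of_nonneg_right e3 p1]
  · have := mul_nonneg (Real.exp_pos 1).le (mul_nonneg (Real.exp_pos (-y)).le p1)
    linarith [mul_comm (y ^ ((2 * k - 1 : ℝ) - 1)) (Real.exp (-y))]

theorem rowUS : OfUS := by
  intro SER CHI CA PHI BND ν N k t f hν hA ht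
  obtain ⟨-, hae, -, hU⟩ := hν
  have hodd : Odd N := by
    have := hA.2.2
    rw [Nat.odd_iff]
    omega
  have hk : 6 ≤ k := hA.1
  obtain ⟨hSm, -, -, hS⟩ := SER.cf _ f
  obtain ⟨hcont, hphi⟩ := PHI N k t hA ht
  obtain ⟨C, hC, hB⟩ := BND N k t f hA ht
  have hone : ∀ z, usH N k t f (0, ((0 : ℕ) : ℤ) + 1) z =
      phi N k t z * ((starRingEnd ℂ) (fC f z) * (z.im : ℂ) ^ (2 * k)) := fun z => by
    rw [usH, Nat.cast_zero, zero_add, usG_one CHI hodd hA.2.1]
  have hzero : ∀ e : ℕ, e ≠ 0 → ∀ z, usH N k t f (0, (e : ℤ) + 1) z = 0 := fun e he z => by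
    rw [usH, usG_zero, zero_mul]
    simp only [isCoprime_zero_left, Int.isUnit_iff]
    omega
  have key := (hU (usH N k t f) ?_ ?_ ?_ ?_ ?_).2
  · rw [← integral_const_mul]
    have h1 : ∫ τ, 2 * ps k (fq N k (N * t ^ 2)) f τ ∂ν = ∫ τ, ∑' v, usH N k t f v τ ∂ν := by
      refine integral_congr_ae (hae.mono fun τ hτ => ?_)
      simp only [usH]
      rw [tsum_mul_right, usG_sum CA hA ht hτ, ps]
      ring
    rw [h1, key, tsum_eq_single 0]
    · refine setIntegral_congr_fun measurableSet_Ioi fun y hy => ?_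
      have hy0 : (y : ℂ) ≠ 0 := by exact_mod_cast (ne_of_gt hy)
      have him : ∀ x : ℝ, ((x + y * I : ℂ)).im = y := fun x => by simp
      simp only [hone, him, ← mul_assoc]
      rw [intervalIntegral.integral_mul_const, Im]
      have : (y : ℂ) ^ (2 * k) = y ^ (2 * k - 2) * y ^ 2 := by
        rw [← pow_add]
        congr 1
        omega
      rw [this]
      field_simp
    · intro e he
      simp only [hzero e he, intervalIntegral.integral_zero, zero_div, integral_zero]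
  · intro τ _
    rw [usH, usG_zero, zero_mul]
    exact not_isCoprime_zero_zero
  · intro a δ τ hτ
    have hz : τ ≠ 0 := by
      rintro rfl
      simp at hτ
    have h1 : fC f (-1 / τ) = τ ^ (2 * k) * fC f τ := by
      have := hS τ hτ
      rwa [zpow_natCast] at this
    rw [usH, usH, usG_S CHI hodd k _ hz, h1, ← us_im_S hz, map_mul, map_pow, mul_pow, mul_pow]
    ring
  · intro a δ τ _
    rw [usH, usH, usG_T CHI hodd, us_fC_T]
    simp
  · intro e
    by_cases he : e = 0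
    · subst he
      rw [show usH N k t f (0, ((0 : ℕ) : ℤ) + 1) = _ from funext hone]
      have hf : ContinuousOn (fC f) {τ | 0 < τ.im} :=
        (SER.diff 1 _ one_pos hSm).continuousOn
      exact hcont.mul ((continuous_conj.comp_continuousOn hf).mul
        ((continuous_ofReal.comp continuous_im).pow _).continuousOn)
    · rw [show usH N k t f (0, (e : ℤ) + 1) = _ from funext (hzero e he)]
      exact continuousOn_const
  · rw [tsum_eq_single 0]
    · refine ne_top_of_le_ne_top (us_major_int k (by omega) C).lintegral_lt_top.ne ?_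
      refine setLIntegral_mono' measurableSet_Ioi fun y hy => ?_
      have hy' : 0 < y := hy
      have hr : 0 ≤ y ^ (2 * k) / y ^ 2 := by positivity
      have h1 : ∀ x : ℝ, ENNReal.ofReal (‖usH N k t f (0, ((0 : ℕ) : ℤ) + 1) (x + y * I)‖ / y ^ 2) ≤
          ENNReal.ofReal (y ^ (2 * k) / y ^ 2) *
            ENNReal.ofReal (maj N k t (x + y * I) * ‖fC f (x + y * I)‖) := fun x => by
        have him : ((x + y * I : ℂ)).im = y := by simp
        rw [← ENNReal.ofReal_mul hr, hone, him]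
        refine ENNReal.ofReal_le_ofReal ?_
        rw [norm_mul, norm_mul, norm_conj, norm_pow, norm_real, Real.norm_of_nonneg hy'.le]
        have h2 := (hphi (x + y * I) (by rw [him]; exact hy')).2.1
        have h3 := mul_le_mul_of_nonneg_right h2 (mul_nonneg hr (norm_nonneg (fC f (x + y * I))))
        calc _ = ‖phi N k t (x + y * I)‖ * (y ^ (2 * k) / y ^ 2 * ‖fC f (x + y * I)‖) := by ring
          _ ≤ _ := h3
          _ = _ := by ring
      refine (lintegral_mono h1).trans ?_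
      rw [lintegral_const_mul' _ _ ENNReal.ofReal_ne_top]
      refine (mul_le_mul_right (hB y hy') _).trans ?_
      rw [← ENNReal.ofReal_mul hr]
      refine ENNReal.ofReal_le_ofReal ?_
      have := mul_le_mul_of_nonneg_left (us_major_le k hy') hC
      linarith [mul_left_comm (y ^ (2 * k) / y ^ 2) C
        (if y ≤ 1 then y ^ (5 / 4 - 2 * k : ℝ) else Real.exp (-y))]
    · intro e he
      simp only [hzero e he, norm_zero, zero_div, ENNReal.ofReal_zero, lintegral_zero]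

end

end Pool.Agent.MP_5f72fe_nt.H19
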