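import Pool.Agent.MP_5f72fe_nt.H25.SpecD
import Pool.Agent.MP_5f72fe_nt.H96.BASE
import Pool.Agent.MP_5f72fe_nt.H50.NZ
import Pool.Agent.MP_5f72fe_nt.H62.INT

/-! Row Z: the unary theta series of level three. -/

namespace Pool.Agent.MP_5f72fe_nt.H19

open Pool.Agent.MP_5f72fe_nt.H3 Pool.Agent.MP_5f72fe_nt.H25 Pool.Agent.MP_5f72fe_nt.H96
open Pool.Agent.MP_5f72fe_nt.H62.IntF
open Complex Filter Topology
open scoped Real PowerSeries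

namespace RZ

theorem ladd {r : ℕ} {F G : ℤ⟦X⟧} {c d : ℤ} (h : L r F c) (h' : L r G d) :
    L r (F + G) (c + d) := by
  refine ⟨fun n hn => ?_, by rw [map_add, h.2, h'.2]⟩
  by_cases e : PowerSeries.coeff n F = 0
  · exact h'.1 n fun e' => hn (by rw [map_add, e, e', add_zero])
  · exact h.1 n e

theorem ldown {F : ℤ⟦X⟧} {c : ℤ} (h : L 13 F c) : L 1 F 0 := by
  constructor
  · intro n hn
    obtain ⟨t, ht⟩ := h.1 n hn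
    exact ⟨t + 1, by omega⟩
  · by_contra hc
    obtain ⟨t, ht⟩ := h.1 1 hc
    omega

theorem mem0 {μ n : ℕ} (h : PowerSeries.coeff n (Z0 μ) ≠ 0) :
    ∃ r : ℤ, 9 * r ^ 2 = n ∧ r % 2 = μ := by
  rw [Z0, PowerSeries.coeff_mk, Nat.cast_ne_zero, Finset.card_ne_zero] at h
  obtain ⟨r, hr⟩ := h
  exact ⟨r, (Finset.mem_filter.1 hr).2⟩

theorem mem1 {μ n : ℕ} (h : PowerSeries.coeff n (Z1 μ) ≠ 0) :
    ∃ r : ℤ, r ^ 2 = n ∧ r % 3 = 1 ∧ r % 2 = μ := by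
  rw [Z1, PowerSeries.coeff_mk, Nat.cast_ne_zero, Finset.card_ne_zero] at h
  obtain ⟨r, hr⟩ := h
  exact ⟨r, (Finset.mem_filter.1 hr).2⟩

theorem l00 : L 0 (Z0 0) 1 := by
  refine ⟨fun n hn => ?_, by rw [Z0, PowerSeries.coeff_mk]; decide⟩
  obtain ⟨r, h1, h2⟩ := mem0 hn
  obtain ⟨s, rfl⟩ : ∃ s, r = 2 * s := ⟨r / 2, by omega⟩
  have e : (n : ℤ) = 12 * (3 * s ^ 2) := by rw [← h1]; ring
  exact ⟨n / 12, by omega⟩

theorem l01 : L 9 (Z0 1) (PowerSeries.coeff 9 (Z0 1)) := by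
  refine ⟨fun n hn => ?_, rfl⟩
  obtain ⟨r, h1, h2⟩ := mem0 hn
  obtain ⟨s, rfl⟩ : ∃ s, r = 2 * s + 1 := ⟨r / 2, by omega⟩
  have e : (n : ℤ) = 9 + 12 * (3 * s ^ 2 + 3 * s) := by rw [← h1]; ring
  exact ⟨n / 12, by omega⟩

theorem l10 : L 4 (Z1 0) (PowerSeries.coeff 4 (Z1 0)) := by
  refine ⟨fun n hn => ?_, rfl⟩
  obtain ⟨r, h1, h2, h3⟩ := mem1 hn
  obtain ⟨s, rfl⟩ : ∃ s, r = 6 * s + 4 := ⟨r / 6, by omega⟩
  have e : (n : ℤ) = 4 + 12 * (3 * s ^ 2 + 4 * s + 1) := by rw [← h1]; ring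
  exact ⟨n / 12, by omega⟩

theorem l11 : L 1 (Z1 1) 1 := by
  refine ⟨fun n hn => ?_, by rw [Z1, PowerSeries.coeff_mk]; decide⟩
  obtain ⟨r, h1, h2, h3⟩ := mem1 hn
  obtain ⟨s, rfl⟩ : ∃ s, r = 6 * s + 1 := ⟨r / 6, by omega⟩
  have e : (n : ℤ) = 1 + 12 * (3 * s ^ 2 + s) := by rw [← h1]; ring
  exact ⟨n / 12, by omega⟩

theorem lD : L 1 D2 1 := (l00.mul l11).sub (ldown (l01.mul l10))

theorem lQ : L 0 (Aa ^ 3 - 108 * Kk ^ 3) 1 := (LA.pow 3).sub (L.nat (L.down (LK.pow 3)) 108)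

theorem sW00 : Sup 12 4 (W0 0) := ((LA.mul l10).sub ((L.nat LK 3).mul l00)).1

theorem sW01 : Sup 12 1 (W0 1) := ((LA.mul l11).sub (ldown ((L.nat LK 3).mul l01))).1

theorem sW20 : Sup 12 4 (W2 0) :=
  (ladd (lQ.mul l10) (((L.nat (LA.pow 2) 9).mul LK).mul l00)).1

theorem sW21 : Sup 12 1 (W2 1) :=
  (ladd (lQ.mul l11) (ldown (((L.nat (LA.pow 2) 9).mul LK).mul l01))).1

/-- the indicator of a class modulo three -/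
noncomputable def dd (ρ : ℤ) (b : ℤ) : ℂ := if b % 3 = ρ then 1 else 0

theorem dd_per (ρ b : ℤ) : dd ρ (b + (3 : ℕ)) = dd ρ b := by
  simp [dd]

/-- the terms of a theta series of level three -/
noncomputable def tz (X : ℤ → ℂ) (μ : ℕ) (τ : ℂ) (b : ℤ) : ℂ :=
  if b % 2 = μ then X b * E (b ^ 2 * τ / (4 * (3 : ℕ)) + b * 0) else 0

theorem tz_sum (hT : RowTH) (ρ : ℤ) (μ : ℕ) {τ : ℂ} (hτ : 0 < τ.im) :
    HasSum (tz (dd ρ) μ τ) (thX 3 (dd ρ) μ τ 0) := by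
  have := (hT 3 (dd ρ) (by decide) (dd_per ρ) τ 0 hτ 0 (by norm_num)).1
  refine (Summable.of_norm_bounded this fun b => ?_).hasSum
  unfold tz
  split_ifs
  · exact le_rfl
  · rw [norm_zero]; exact norm_nonneg _

theorem th_two (μ : ℕ) (τ : ℂ) : thX 3 (dd 2) μ τ 0 = thX 3 (dd 1) μ τ 0 := by
  rw [thX, thX, ← (Equiv.neg ℤ).tsum_eq]
  refine tsum_congr fun b => ?_
  have h1 : (-b) % 2 = b % 2 := by omega
  have h2 : dd 2 (-b) = dd 1 b := by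
    unfold dd
    exact if_congr (by omega) rfl rfl
  simp only [Equiv.neg_apply, h1, h2, Int.cast_neg, neg_sq, mul_zero]

theorem th_split (hT : RowTH) (X : ℤ → ℂ) (hX : ∀ b, X b = X (b % 3)) (μ : ℕ) {τ : ℂ}
    (hτ : 0 < τ.im) :
    thX 3 X μ τ 0 = X 0 * thX 3 (dd 0) μ τ 0 + (X 1 + X 2) * thX 3 (dd 1) μ τ 0 := by
  have h := (((tz_sum hT 0 μ hτ).mul_left (X 0)).add ((tz_sum hT 1 μ hτ).mul_left (X 1))).add
    ((tz_sum hT 2 μ hτ).mul_left (X 2))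
  rw [th_two] at h
  rw [add_mul, ← add_assoc, ← h.tsum_eq]
  refine tsum_congr fun b => ?_
  unfold tz
  split_ifs
  · rw [hX b]
    have : b % 3 = 0 ∨ b % 3 = 1 ∨ b % 3 = 2 := by omega
    rcases this with e | e | e <;> simp [dd, e]
  · simp

theorem hasSum_1 (hT : RowTH) (μ : ℕ) {τ : ℂ} (hτ : 0 < τ.im) :
    HasSum (fun n : ℕ => cz (Z1 μ) n * E (n * τ / (12 : ℕ))) (thX 3 (dd 1) μ τ 0) := by
  have := regroup (tz_sum hT 1 μ hτ) (fun r => (r ^ 2).toNat)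
    (fun n => (Finset.Icc (-(n : ℤ)) n).filter fun r : ℤ => r ^ 2 = n ∧ r % 3 = 1 ∧ r % 2 = μ)
    (fun n => E (n * τ / (12 : ℕ))) ?_ ?_
  · simpa only [cz, Z1, PowerSeries.coeff_mk, Int.cast_natCast] using this
  · intro n r hr
    obtain ⟨-, h1, h3, h2⟩ := Finset.mem_filter.1 hr
    refine ⟨by rw [h1, Int.toNat_natCast], ?_⟩
    have h4 : (n : ℂ) = r ^ 2 := by exact_mod_cast h1.symm
    rw [tz, if_pos h2, dd, if_pos h3, one_mul, h4]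
    congr 1
    push_cast
    ring
  · intro r hr
    have h0 : (((r ^ 2).toNat : ℕ) : ℤ) = r ^ 2 := Int.toNat_of_nonneg (by positivity)
    unfold tz
    split_ifs with h2
    · rw [dd, if_neg, zero_mul]
      exact fun h3 => hr (Finset.mem_filter.2 ⟨icc_of_sq h0.ge, h0.symm, h3, h2⟩)
    · rfl

theorem hasSum_0 (hT : RowTH) (μ : ℕ) {τ : ℂ} (hτ : 0 < τ.im) :
    HasSum (fun n : ℕ => cz (Z0 μ) n * E (n * τ / (12 : ℕ))) (thX 3 (dd 0) μ τ 0) := by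
  have hs : HasSum (tz (dd 0) μ τ ∘ fun r : ℤ => 3 * r) (thX 3 (dd 0) μ τ 0) := by
    refine (Function.Injective.hasSum_iff (fun _ _ e => by simpa using e) fun b hb => ?_).2
      (tz_sum hT 0 μ hτ)
    have : ¬ b % 3 = 0 := fun h => hb ⟨b / 3, by dsimp only; omega⟩
    simp [tz, dd, this]
  have := regroup hs (fun r => (9 * r ^ 2).toNat)
    (fun n => (Finset.Icc (-(n : ℤ)) n).filter fun r : ℤ => 9 * r ^ 2 = n ∧ r % 2 = μ)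
    (fun n => E (n * τ / (12 : ℕ))) ?_ ?_
  · simpa only [cz, Z0, PowerSeries.coeff_mk, Int.cast_natCast] using this
  · intro n r hr
    obtain ⟨-, h1, h2⟩ := Finset.mem_filter.1 hr
    refine ⟨by rw [h1, Int.toNat_natCast], ?_⟩
    have h4 : (n : ℂ) = 9 * r ^ 2 := by exact_mod_cast h1.symm
    rw [Function.comp_apply, tz, if_pos (by omega), dd, if_pos (by omega), one_mul, h4]
    congr 1
    push_cast
    ring
  · intro r hr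
    have h0 : (((9 * r ^ 2).toNat : ℕ) : ℤ) = 9 * r ^ 2 := Int.toNat_of_nonneg (by positivity)
    refine if_neg fun (h2 : 3 * r % 2 = μ) =>
      hr (Finset.mem_filter.2 ⟨icc_of_sq ?_, h0.symm, by omega⟩)
    rw [h0]
    linarith [sq_nonneg r]

theorem hat0 : hat 3 (dd 0) = fun _ => (((√3 : ℝ) : ℂ))⁻¹ := by
  funext b
  simp [hat, dd, Finset.sum_range_succ, E]

theorem hat1 (b : ℤ) : hat 3 (dd 1) b = E (-(2 * b) / 3) * (((√3 : ℝ) : ℂ))⁻¹ := by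
  simp [hat, dd, Finset.sum_range_succ, div_eq_mul_inv, mul_comm]

theorem law0 (hT : RowTH) {τ : ℂ} (hτ : 0 < τ.im) {μ : ℕ} (hμ : μ < 2) :
    sr (Z0 μ) (-1 / τ) = Jh τ / (√3 : ℝ) *
      (((sr (Z0 0) τ + 2 * sr (Z1 0) τ) + (-1) ^ μ * (sr (Z0 1) τ + 2 * sr (Z1 1) τ)) /
        (√2 : ℝ)) := by
  have h1 := (hT 3 (dd 0) (by decide) (dd_per 0) τ 0 hτ μ hμ).2
  have e2 : E ((3 : ℕ) * 0 ^ 2 / τ) = 1 := by simp [E]
  rw [hat0, e2, one_mul, zero_div, th_split hT (fun _ => _) (fun _ => rfl) 0 hτ,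
    th_split hT (fun _ => _) (fun _ => rfl) 1 hτ] at h1
  have a : ∀ ν {σ : ℂ}, 0 < σ.im → sr (Z0 ν) σ = thX 3 (dd 0) ν σ 0 :=
    fun ν _ h => (hasSum_0 hT ν h).tsum_eq
  have b : ∀ ν {σ : ℂ}, 0 < σ.im → sr (Z1 ν) σ = thX 3 (dd 1) ν σ 0 :=
    fun ν _ h => (hasSum_1 hT ν h).tsum_eq
  rw [a μ (im_inv hτ), a 0 hτ, a 1 hτ, b 0 hτ, b 1 hτ, h1]
  ring

theorem law1 (hJ : RowJH) (hT : RowTH) {τ : ℂ} (hτ : 0 < τ.im) {μ : ℕ} (hμ : μ < 2) :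
    sr (Z1 μ) (-1 / τ) = Jh τ / (√3 : ℝ) *
      (((sr (Z0 0) τ - sr (Z1 0) τ) + (-1) ^ μ * (sr (Z0 1) τ - sr (Z1 1) τ)) / (√2 : ℝ)) := by
  have h1 := (hT 3 (dd 1) (by decide) (dd_per 1) τ 0 hτ μ hμ).2
  have e2 : E ((3 : ℕ) * 0 ^ 2 / τ) = 1 := by simp [E]
  have hX : ∀ b, hat 3 (dd 1) b = hat 3 (dd 1) (b % 3) := fun b => by
    have e : (b : ℂ) = 3 * ((b / 3 : ℤ) : ℂ) + ((b % 3 : ℤ) : ℂ) := by
      exact_mod_cast (Int.mul_ediv_add_emod b 3).symm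
    have e' : -(2 * (b : ℂ)) / 3 = -(2 * ((b % 3 : ℤ) : ℂ)) / 3 + ((-2 * (b / 3) : ℤ) : ℂ) := by
      rw [e, Int.cast_mul]
      push_cast
      ring
    rw [hat1, hat1, e', hJ.add, hJ.int, mul_one]
  have r3 : (((√3 : ℝ) : ℂ)) ^ 2 = 3 := by
    rw [← Complex.ofReal_pow, Real.sq_sqrt (by norm_num)]
    norm_num
  have x0 : hat 3 (dd 1) 0 = (((√3 : ℝ) : ℂ))⁻¹ := by simp [hat1, E]
  have x1 : hat 3 (dd 1) 1 + hat 3 (dd 1) 2 = -(((√3 : ℝ) : ℂ))⁻¹ := by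
    have y1 : -(2 * ((1 : ℤ) : ℂ)) / 3 = 1 / 3 + ((-1 : ℤ) : ℂ) := by
      push_cast
      ring
    have y2 : -(2 * ((2 : ℤ) : ℂ)) / 3 = 1 / 3 + 1 / 3 + ((-2 : ℤ) : ℂ) := by
      push_cast
      ring
    rw [hat1, hat1, y1, y2, hJ.add, hJ.add, hJ.add, hJ.int, hJ.int, hJ.quarter.2.2.2]
    linear_combination ((((√3 : ℝ) : ℂ))⁻¹ * I ^ 2 / 4) * r3 +
      (3 * (((√3 : ℝ) : ℂ))⁻¹ / 4) * I_sq
  rw [e2, one_mul, zero_div, th_split hT _ hX 0 hτ, th_split hT _ hX 1 hτ, x0, x1] at h1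
  have a : ∀ ν {σ : ℂ}, 0 < σ.im → sr (Z0 ν) σ = thX 3 (dd 0) ν σ 0 :=
    fun ν _ h => (hasSum_0 hT ν h).tsum_eq
  have b : ∀ ν {σ : ℂ}, 0 < σ.im → sr (Z1 ν) σ = thX 3 (dd 1) ν σ 0 :=
    fun ν _ h => (hasSum_1 hT ν h).tsum_eq
  rw [b μ (im_inv hτ), a 0 hτ, a 1 hτ, b 0 hτ, b 1 hτ, h1]
  ring

end RZ

open RZ in
theorem rowZ : OfZ := by
  intro hS hJ hT _ hB
  have m0 : ∀ μ, Z0 μ ∈ smRing := fun μ => sm_hs hJ fun τ hτ => hasSum_0 hT μ hτ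
  have m1 : ∀ μ, Z1 μ ∈ smRing := fun μ => sm_hs hJ fun τ hτ => hasSum_1 hT μ hτ
  have mA : Aa ∈ smRing := hB.sm.2.1
  have mK : Kk ∈ smRing := hB.sm.2.2.1
  have mD : D2 ∈ smRing := sub_mem (mul_mem (m0 0) (m1 1)) (mul_mem (m0 1) (m1 0))
  have ev : ∀ τ : ℂ, 0 < τ.im →
      sr D2 τ = sr (Z0 0) τ * sr (Z1 1) τ - sr (Z0 1) τ * sr (Z1 0) τ ∧
      ∀ μ, sr (W0 μ) τ = sr Aa τ * sr (Z1 μ) τ - 3 * sr Kk τ * sr (Z0 μ) τ ∧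
        sr (W2 μ) τ = (sr Aa τ ^ 3 - 108 * sr Kk τ ^ 3) * sr (Z1 μ) τ +
          9 * sr Aa τ ^ 2 * sr Kk τ * sr (Z0 μ) τ := fun τ hτ => by
    obtain ⟨φ, hφ⟩ := ring hJ hτ
    refine ⟨?_, fun μ => ⟨?_, ?_⟩⟩
    · have h := hφ (⟨Z0 0, m0 0⟩ * ⟨Z1 1, m1 1⟩ - ⟨Z0 1, m0 1⟩ * ⟨Z1 0, m1 0⟩)
      rw [map_sub, map_mul, map_mul, hφ, hφ, hφ, hφ] at h
      exact h.symm
    · have h := hφ (⟨Aa, mA⟩ * ⟨Z1 μ, m1 μ⟩ - 3 * ⟨Kk, mK⟩ * ⟨Z0 μ, m0 μ⟩)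
      rw [map_sub, map_mul, map_mul, map_mul, map_ofNat, hφ, hφ, hφ, hφ] at h
      exact h.symm
    · have h := hφ ((⟨Aa, mA⟩ ^ 3 - 108 * ⟨Kk, mK⟩ ^ 3) * ⟨Z1 μ, m1 μ⟩ +
        9 * ⟨Aa, mA⟩ ^ 2 * ⟨Kk, mK⟩ * ⟨Z0 μ, m0 μ⟩)
      rw [map_add, map_mul, map_mul, map_mul, map_mul, map_sub, map_mul, map_pow, map_pow, map_pow,
        map_ofNat, map_ofNat, hφ, hφ, hφ, hφ] at h
      exact h.symm
  have i2 : (((√2 : ℝ) : ℂ))⁻¹ ^ 2 = 1 / 2 := by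
    rw [inv_pow, ← Complex.ofReal_pow, Real.sq_sqrt (by norm_num)]
    norm_num
  have i3 : (((√3 : ℝ) : ℂ))⁻¹ ^ 2 = 1 / 3 := by
    rw [inv_pow, ← Complex.ofReal_pow, Real.sq_sqrt (by norm_num)]
    norm_num
  have lawD : ∀ τ : ℂ, 0 < τ.im → sr D2 (-1 / τ) = Jh τ ^ 2 * sr D2 τ := by
    intro τ hτ
    rw [(ev _ (im_inv hτ)).1, (ev _ hτ).1, law0 hT hτ (μ := 0) (by norm_num),
      law0 hT hτ (μ := 1) (by norm_num), law1 hJ hT hτ (μ := 0) (by norm_num),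
      law1 hJ hT hτ (μ := 1) (by norm_num)]
    simp only [div_eq_mul_inv]
    generalize (((√2 : ℝ) : ℂ))⁻¹ = s at i2
    generalize (((√3 : ℝ) : ℂ))⁻¹ = t at i3
    have h6 : s ^ 2 * t ^ 2 = 1 / 6 := by
      rw [i2, i3]
      norm_num
    linear_combination
      (Jh τ ^ 2 * 6 * (sr (Z0 0) τ * sr (Z1 1) τ - sr (Z0 1) τ * sr (Z1 0) τ)) * h6
  refine ⟨⟨l00.1, l01.1, l00.2⟩, ⟨l10.1, l11.1, l11.2⟩, lD, ⟨sW00, sW01, sW20, sW21⟩,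
    fun μ _ => ⟨m0 μ, m1 μ⟩, fun τ hτ μ hμ => law0 hT hτ hμ, fun τ hτ μ hμ => law1 hJ hT hτ hμ,
    lawD, fun τ hτ => ?_, fun τ hτ μ hμ => ?_, fun τ hτ μ hμ => ?_⟩
  · obtain ⟨h1, h2⟩ := hS.ex 12 1 (cz D2) (by norm_num) mD (H50.supC lD.1)
    have a2 := hS.exMul _ _ _ _ h1 h1
    have a4 := hS.exMul _ _ _ _ a2 a2
    have h3 := hS.exMul _ _ _ _ (hS.exMul _ _ _ _ a4 a4) a4
    have b2 := hS.ldMul _ _ _ _ _ _ h2 h2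
    have b4 := hS.ldMul _ _ _ _ _ _ b2 b2
    have h4 := hS.ldMul _ _ _ _ _ _ (hS.ldMul _ _ _ _ _ _ b4 b4) b4
    have e : ∀ x : ℝ, x = ((1 : ℕ) : ℝ) / (12 : ℕ) →
        x + x + (x + x) + (x + x + (x + x)) + (x + x + (x + x)) = 1 := by
      rintro x rfl
      norm_num
    rw [e _ rfl] at h3 h4
    have c1 : cz D2 1 = 1 := by simp [cz, lD.2]
    have := H50.ne_of_twelve hS _ _ (by simp [c1]) h3 h4 (fun σ hσ => by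
      have := lawD σ hσ
      unfold sr at this
      rw [this, show (12 : ℤ) = ((12 : ℕ) : ℤ) from rfl, zpow_natCast]
      have h24 : Jh σ ^ 24 = σ ^ 12 := by
        rw [show Jh σ ^ 24 = (Jh σ ^ 2) ^ 12 by ring, hJ.sq, mul_pow,
          show (-I) ^ 12 = (I ^ 4) ^ 3 by ring, I_pow_four]
        ring
      linear_combination (ser 12 (cz D2) σ ^ 12) * h24) τ hτ
    exact fun h0 => this (mul_eq_zero_of_right _ (mul_eq_zero_of_right _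
      (mul_eq_zero_of_right _ h0)))
  · rw [((ev _ (im_inv hτ)).2 μ).1, ((ev _ hτ).2 0).1, ((ev _ hτ).2 1).1, law0 hT hτ hμ,
      law1 hJ hT hτ hμ, hB.lawA τ hτ, hB.lawK τ hτ, ← hJ.sq τ]
    simp only [div_eq_mul_inv, mul_inv]
    generalize (((√2 : ℝ) : ℂ))⁻¹ = s
    generalize (((√3 : ℝ) : ℂ))⁻¹ = t at i3
    linear_combination (-3 * Jh τ ^ 3 * s *
      (sr Aa τ * sr (Z1 0) τ - 3 * sr Kk τ * sr (Z0 0) τ +
        (-1) ^ μ * (sr Aa τ * sr (Z1 1) τ - 3 * sr Kk τ * sr (Z0 1) τ))) * i3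
  · rw [((ev _ (im_inv hτ)).2 μ).2, ((ev _ hτ).2 0).2, ((ev _ hτ).2 1).2, law0 hT hτ hμ,
      law1 hJ hT hτ hμ, hB.lawA τ hτ, hB.lawK τ hτ, ← hJ.sq τ]
    simp only [div_eq_mul_inv, mul_inv]
    generalize (((√2 : ℝ) : ℂ))⁻¹ = s
    generalize (((√3 : ℝ) : ℂ))⁻¹ = t at i3
    have h4 : t ^ 4 = 1 / 9 := by
      rw [show t ^ 4 = (t ^ 2) ^ 2 by ring, i3]
      norm_num
    linear_combination (9 * Jh τ ^ 7 * s *
      ((sr Aa τ ^ 3 - 108 * sr Kk τ ^ 3) * sr (Z1 0) τ + 9 * sr Aa τ ^ 2 * sr Kk τ * sr (Z0 0) τ +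
        (-1) ^ μ * ((sr Aa τ ^ 3 - 108 * sr Kk τ ^ 3) * sr (Z1 1) τ +
          9 * sr Aa τ ^ 2 * sr Kk τ * sr (Z0 1) τ))) * h4

end Pool.Agent.MP_5f72fe_nt.H19
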